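import Pool.Agent.K7.H22.LW.Stm

set_option autoImplicit false

namespace Pool.Agent.K7.H22.LW

theorem polyS (hP : StP) (N : ℕ) : ∀ g, g ≤ N → IsPoly N 1 (g : ℝ) (fun b => S b g) := by
  intro g
  induction g with
  | zero =>
    intro _
    have := hP.1 N 1 0 0 (by simp)
    simpa [S] using this
  | succ g ih =>
    intro h
    have h1 := hP.2.2.2.1 N 1 g 1 _ _ (ih (by omega)) (hP.2.1 N 1 g (by omega) le_rfl)
    have e : (fun b : ℕ → ℝ => S b (g + 1)) = fun b => S b g + b g := by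
      funext b
      simp [S, Finset.sum_range_succ]
    rw [e]
    push_cast
    exact h1

theorem a (hP : StP) (hE : StE) : StA := by
  obtain ⟨hc, hv, hm, ha, hmul, -, -⟩ := id hP
  obtain ⟨e1, e2, e3, -, e5, e6⟩ := hE
  intro g hg
  have hg' : (4 : ℝ) ≤ g := by exact_mod_cast hg
  have hg0 : (0 : ℝ) < g := by linarith
  refine ⟨?_, ?_, ?_, ?_⟩
  · have h1 := polyS hP g g le_rfl
    have h2 := hmul g 1 1 _ _ _ _ h1 h1
    have h3 := hmul g 0 (1 + 1) _ _ _ _ (hc g 0 (1 / (3 * g)) (-1 / (3 * (g : ℝ))) (by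
      rw [abs_div, abs_neg, abs_one, abs_of_pos (by positivity)])) h2
    have h4 := ha g 2 1 _ _ _ (hc g 2 1 1 (by simp)) (hm _ _ _ _ g 2 _ h3 le_rfl (by norm_num) le_rfl)
    have h5 := hmul g 2 2 _ _ _ _ h4 h4
    have h6 := hmul g 0 (2 + 2) _ _ _ _ (hc g 0 (9 / 4) (9 / 4) (by
      rw [abs_of_pos]; norm_num)) h5
    have h7 := ha g 4 1 _ _ _ (hc g 4 1 1 (by simp)) (hm _ _ _ _ g 4 _ h6 le_rfl (by norm_num) le_rfl)
    have h8 := hm _ _ _ _ g 4 ((g : ℝ) ^ 2) h7 le_rfl le_rfl (by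
      have : (1 : ℝ) / (3 * g) * (g * g) = g / 3 := by field_simp
      rw [this]
      nlinarith)
    have e : f₁ g = fun b => 1 + 9 / 4 * ((1 + -1 / (3 * (g : ℝ)) * (S b g * S b g)) *
        (1 + -1 / (3 * (g : ℝ)) * (S b g * S b g))) := by
      funext b
      simp only [f₁]
      ring
    rw [e]
    exact h8
  · have e : f₁ g = fun b => (9 / (4 * (9 * (g : ℝ) ^ 2))) * (S b g ^ 4) +
        ((-(3 / 2) / g) * (S b g ^ 2) + 13 / 4) := by
      funext b
      simp only [f₁]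
      field_simp
      ring
    rw [e, e1, e1, e2, e5]
    have h6 := e6 g
    have : (9 / (4 * (9 * (g : ℝ) ^ 2))) * E g (fun b => S b g ^ 4) ≤
        (9 / (4 * (9 * (g : ℝ) ^ 2))) * (3 * (g : ℝ) ^ 2) :=
      mul_le_mul_of_nonneg_left h6 (by positivity)
    have h7 : (9 / (4 * (9 * (g : ℝ) ^ 2))) * (3 * (g : ℝ) ^ 2) = 3 / 4 := by
      field_simp
    have h8 : (-(3 / 2) / (g : ℝ)) * g = -(3 / 2) := by field_simp
    rw [h7] at this
    rw [h8]
    linarith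
  · intro b
    simp only [f₁]
    nlinarith [sq_nonneg (1 - S b g ^ 2 / (3 * (g : ℝ)))]
  · intro b hb
    simp only [f₁]
    have h1 : S b g ^ 2 / (3 * (g : ℝ)) ≤ 1 / 18 := by
      rw [div_le_iff₀ (by positivity)]
      linarith
    nlinarith [sq_nonneg (1 - S b g ^ 2 / (3 * (g : ℝ)) - 17 / 18)]

end Pool.Agent.K7.H22.LW
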